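import Pool.Agent.Helper89.GP.GoalsC

/-! # GP: FNA and FNB -/

namespace Pool.Agent.Helper10.GP

open Finset Pool.Agent.Helper89.GP

variable {n : ℕ}

theorem mem_LX {R : Fin n → Fin n → Prop} {σ : Equiv.Perm (Fin n)} :
    σ ∈ LX R ↔ ∀ a b, R a b → σ a < σ b := by
  classical
  simp only [LX, Finset.mem_filter, Finset.mem_univ, true_and]

/-- The probability as a number of elements. -/
theorem pr_mul (R : Fin n → Fin n → Prop) (p : Equiv.Perm (Fin n) → Prop) [DecidablePred p]
    (h : 0 < (LX R).card) : Pr R p * (LX R).card = ((LX R).filter p).card := by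
  classical
  have h1 : ((LX R).card : ℝ) ≠ 0 := by exact_mod_cast h.ne'
  rw [Pr, div_mul_cancel₀ _ h1]
  congr!

theorem cnt_le (R : Fin n → Fin n → Prop) (h : 0 < (LX R).card) (w z : Fin n) (q : ℝ)
    (hq : q ≤ An R w z) :
    (((LX R).filter fun σ => σ w < σ z).card : ℝ) ≤ (1 - q) * (LX R).card := by
  classical
  have h1 := pr_mul R (fun σ => po σ z < po σ w) h
  have h2 : ((LX R).filter fun σ => σ w < σ z).card +
      ((LX R).filter fun σ => po σ z < po σ w).card ≤ (LX R).card := by
    rw [← Finset.card_union_of_disjoint]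
    · exact Finset.card_le_card (Finset.union_subset (Finset.filter_subset _ _)
        (Finset.filter_subset _ _))
    · rw [Finset.disjoint_filter]
      intro σ _ h3 h4
      have h5 : (σ z : ℕ) < (σ w : ℕ) := h4
      have h6 : (σ w : ℕ) < (σ z : ℕ) := h3
      omega
  have h3 : (((LX R).filter fun σ => σ w < σ z).card : ℝ) +
      ((LX R).filter fun σ => po σ z < po σ w).card ≤ (LX R).card := by exact_mod_cast h2
  have h4 : An R w z * (LX R).card = ((LX R).filter fun σ => po σ z < po σ w).card := h1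
  have h5 : q * (LX R).card ≤ An R w z * (LX R).card :=
    mul_le_mul_of_nonneg_right hq (Nat.cast_nonneg _)
  linarith

/-- FNA -/
theorem fna (hKSA : KsaStmt) : FnaStmt := by
  classical
  intro n R h2 ⟨a, b, hab, hA, hB⟩
  refine ⟨a, b, hab, fun u v huv => ?_⟩
  have hAn : 5 / 16 ≤ An R u v ∧ u ≠ v := by
    rcases huv with ⟨rfl, rfl⟩ | ⟨rfl, rfl⟩
    · exact ⟨hA, hab⟩
    · exact ⟨hB, hab.symm⟩
  obtain ⟨hAn, huv'⟩ := hAn
  set R' : Fin n → Fin n → Prop := fun p q => R p q ∨ (p = u ∧ q = v) with hR'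
  have hLX : LX R' = (LX R).filter fun σ => σ u < σ v := by
    ext σ
    rw [mem_LX, Finset.mem_filter, mem_LX]
    constructor
    · intro h
      exact ⟨fun p q hpq => h p q (Or.inl hpq), h u v (Or.inr ⟨rfl, rfl⟩)⟩
    · rintro ⟨h1, h3⟩ p q (hpq | ⟨rfl, rfl⟩)
      · exact h1 p q hpq
      · exact h3
  have hpos : 0 < (LX R).card := by omega
  have hc1 := cnt_le R hpos u v (5 / 16) hAn
  rw [← hLX] at hc1
  have hsub : ∀ w z : Fin n, ((LX R).filter fun σ => σ u < σ v ∧ σ w < σ z) =
      (LX R').filter fun σ => σ w < σ z := by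
    intro w z
    rw [hLX, Finset.filter_filter]
  rcases Nat.lt_or_ge 1 (LX R').card with h1 | h1
  · obtain ⟨c, d, hcd, hC, hD⟩ := hKSA n R' h1
    refine ⟨c, d, hcd, fun w z hwz => ?_⟩
    have hAn' : 3 / 11 ≤ An R' w z := by
      rcases hwz with ⟨rfl, rfl⟩ | ⟨rfl, rfl⟩
      · exact hC
      · exact hD
    have hc2 := cnt_le R' (by omega) w z (3 / 11) hAn'
    rw [hsub w z]
    have h3 : (2 : ℝ) * (((LX R').filter fun σ => σ w < σ z).card : ℝ) ≤ (LX R).card := by
      linarith
    exact_mod_cast h3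
  · refine ⟨u, v, huv', fun w z _ => ?_⟩
    rw [hsub w z]
    have h3 : ((LX R').filter fun σ => σ w < σ z).card ≤ (LX R').card :=
      Finset.card_le_card (Finset.filter_subset _ _)
    omega

/-- FNB -/
theorem fnb (hGLO : GloStmt) (hFNA : FnaStmt) : FnbStmt := by
  classical
  intro n R h2
  by_contra hbad
  have hpos : 0 < (LX R).card := by omega
  refine hGLO n R h2 ?_ ?_
  · intro a b hab
    by_contra hc
    push Not at hc
    exact hbad (hFNA n R h2 ⟨a, b, hab, hc.1, hc.2⟩)
  · intro x y z hxy hyz h1 h3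
    -- the counting bound
    have key : ∀ (c d : Fin n) (p : Equiv.Perm (Fin n) → Prop) [DecidablePred p],
        An R c d < 5 / 16 →
        (∀ σ, p σ → σ d < σ c) → (LX R).card < 2 * ((LX R).filter p).card → False := by
      intro c d p _ hc hp hlt
      have e1 := pr_mul R (fun σ => po σ d < po σ c) hpos
      have e2 : An R c d * (LX R).card = ((LX R).filter fun σ => po σ d < po σ c).card := e1
      have e3 : ((LX R).filter p).card ≤ ((LX R).filter fun σ => po σ d < po σ c).card := by
        refine Finset.card_le_card fun σ hσ => ?_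
        rw [Finset.mem_filter] at hσ ⊢
        exact ⟨hσ.1, hp σ hσ.2⟩
      have e4 : (((LX R).filter p).card : ℝ) ≤
          ((LX R).filter fun σ => po σ d < po σ c).card := by exact_mod_cast e3
      have e5 : ((LX R).card : ℝ) < 2 * ((LX R).filter p).card := by exact_mod_cast hlt
      have e6 : (0 : ℝ) < (LX R).card := by exact_mod_cast hpos
      have e7 : An R c d * (LX R).card ≤ 5 / 16 * (LX R).card :=
        mul_le_mul_of_nonneg_right hc.le e6.le
      linarith
    have hb : ¬ ∀ u v, ((u = x ∧ v = y) ∨ (u = y ∧ v = x)) →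
      ∃ c d : Fin n, c ≠ d ∧ ∀ w z, ((w = c ∧ z = d) ∨ (w = d ∧ z = c)) →
        2 * ((LX R).filter fun σ => σ u < σ v ∧ σ w < σ z).card ≤ (LX R).card :=
      fun h => hbad ⟨x, y, hxy, h⟩
    push Not at hb
    obtain ⟨u, v, huv, hb⟩ := hb
    rcases huv with ⟨hu, hv⟩ | ⟨hu, hv⟩
    · obtain ⟨w, z', hwz, hlt⟩ := hb y z hyz
      rcases hwz with ⟨hw, hz⟩ | ⟨hw, hz⟩
      · have e1 := pr_mul R (fun σ => po σ x < po σ y ∧ po σ y < po σ z) hpos
        have e2 : Ms R x y z * (LX R).card =
          ((LX R).filter fun σ => po σ x < po σ y ∧ po σ y < po σ z).card := e1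
        have e3 : ((LX R).filter fun σ => po σ x < po σ y ∧ po σ y < po σ z).card =
            ((LX R).filter fun σ => σ x < σ y ∧ σ y < σ z).card := rfl
        rw [e3] at e2
        rw [hu, hv, hw, hz] at hlt
        have e5 : ((LX R).card : ℝ) <
            2 * (((LX R).filter fun σ => σ x < σ y ∧ σ y < σ z).card : ℝ) := by
          exact_mod_cast hlt
        have e6 : (0 : ℝ) < (LX R).card := by exact_mod_cast hpos
        rw [← e2] at e5
        by_contra hc
        push Not at hc
        have e7 : Ms R x y z * (LX R).card ≤ 1 / 2 * (LX R).card :=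
          mul_le_mul_of_nonneg_right hc e6.le
        linarith
      · rw [hu, hv, hw, hz] at hlt
        exact (key y z (fun σ => σ x < σ y ∧ σ z < σ y) h3 (fun σ hσ => hσ.2) hlt).elim
    · obtain ⟨w, z', hwz, hlt⟩ := hb x y hxy
      rw [hu, hv] at hlt
      exact (key x y (fun σ => σ y < σ x ∧ σ w < σ z') h1 (fun σ hσ => hσ.1) hlt).elim

end Pool.Agent.Helper10.GP
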